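import Pool.Agent.Helper5.FS.Stmts2

/-!
# FS, row NU2: numbers, constant `2 log 2`
-/

set_option autoImplicit false

open Finset

namespace Pool.Agent.Helper5.FS

theorem nu2_exp (y : ℝ) (hy : 0 < y) : Real.exp (-y) ≤ 2 / y ^ 2 := by
  have h := Real.quadratic_le_exp_of_nonneg hy.le
  rw [Real.exp_neg, inv_eq_one_div]
  rw [div_le_div_iff₀ (Real.exp_pos _) (by positivity)]
  linarith

theorem st_NU2 : ST_NU2 := by
  intro δ hδ
  have hl2 : 0 < Real.log 2 := Real.log_pos (by norm_num)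
  set c : ℝ := 2 * Real.log 2 + δ with hc
  have hc1 : 1 ≤ c := by
    have := Real.log_two_gt_d9
    linarith
  have hc0 : 0 < c := by linarith
  set η : ℝ := δ / (2 * c) with hη
  have hη0 : 0 < η := by positivity
  have hη1 : η < 1 := by
    rw [hη, div_lt_one (by positivity)]
    linarith
  set a : ℝ := 2 * Real.log 2 + δ / 2 with ha
  have hac : (1 - η) * c = a := by
    have : η * c = δ / 2 := by
      rw [hη]
      field_simp
    rw [sub_mul, this, ha]
    linarith
  have ha0 : 0 < a := by positivity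
  set ζ : ℝ := 1 - 2 * Real.log 2 / a with hζ
  have hζ0 : 0 < ζ := by
    rw [hζ, sub_pos, div_lt_one ha0]
    linarith
  refine ⟨(2 / ζ ^ 2 + 2) / η ^ 2, ?_⟩
  intro n m q hq hn hK hm
  set L : ℝ := Real.log ((n : ℝ) / q) with hL
  have hK0 : 0 < (2 / ζ ^ 2 + 2) / η ^ 2 := by positivity
  have hL0 : 0 < L := hK0.trans_le hK
  have hn0 : (0:ℝ) < n := by exact_mod_cast hn
  have hq0 : (0:ℝ) < q := by exact_mod_cast hq
  have hm0 : (0:ℝ) < m := by
    by_contra h
    have h1 : (m:ℝ) = 0 := le_antisymm (not_lt.1 h) (Nat.cast_nonneg m)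
    rw [h1, zero_mul] at hm
    have h2 : 0 < c * n := by positivity
    linarith
  have hm1 : 1 ≤ m := by exact_mod_cast (Nat.cast_pos.1 hm0)
  set k : ℕ := ⌈η * m⌉₊ with hk
  set s : ℕ := ⌊(n:ℝ) / ((1 - η) * m)⌋₊ with hs
  have hk1 : (k:ℝ) < η * m + 1 := Nat.ceil_lt_add_one (by positivity)
  have hk2 : η * m ≤ k := Nat.le_ceil _
  have hkm : k ≤ m := by
    apply Nat.ceil_le.2
    nlinarith
  have h2 : 0 < (1 - η) * m := mul_pos (by linarith) hm0
  refine ⟨s, k, hm1, hkm, ?_, ?_⟩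
  · have h1 : (n:ℝ) / ((1 - η) * m) < s + 1 := Nat.lt_floor_add_one _
    rw [div_lt_iff₀ h2] at h1
    have h3 : (1 - η) * m < ((m + 1 - k : ℕ) : ℝ) := by
      rw [Nat.cast_sub (by omega)]
      push_cast
      linarith
    have h4 : (n:ℝ) < (((s + 1) * (m + 1 - k) : ℕ) : ℝ) := by
      rw [Nat.cast_mul]
      calc (n:ℝ) < ((s:ℝ) + 1) * ((1-η) * m) := h1
        _ ≤ ((s:ℝ) + 1) * ((m + 1 - k : ℕ) : ℝ) :=
            mul_le_mul_of_nonneg_left h3.le (by positivity)
        _ = ((s + 1 : ℕ) : ℝ) * ((m + 1 - k : ℕ) : ℝ) := by push_cast; rfl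
    exact_mod_cast h4
  · have e0 : (s : ℝ) ≤ L / a := by
      have h1 : (s : ℝ) ≤ (n:ℝ) / ((1 - η) * m) := Nat.floor_le (by positivity)
      refine h1.trans ?_
      rw [div_le_div_iff₀ h2 ha0, ← hac]
      have h3 := mul_le_mul_of_nonneg_left hm (by linarith : (0:ℝ) ≤ 1 - η)
      linarith
    have e1 : (2:ℝ) ^ (2 * s) ≤ Real.exp ((1 - ζ) * L) := by
      have h1 : (2:ℝ) ^ (2 * s) = Real.exp (((2 * s : ℕ) : ℝ) * Real.log 2) := by
        rw [Real.exp_nat_mul, Real.exp_log (by norm_num)]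
      rw [h1]
      apply Real.exp_le_exp.2
      have h3 : (1 - ζ) * L = 2 * Real.log 2 * (L / a) := by
        rw [hζ]
        ring
      rw [h3]
      push_cast
      have h4 := mul_le_mul_of_nonneg_left e0 (by positivity : 0 ≤ 2 * Real.log 2)
      linarith
    have e2 : (q:ℝ) = n * Real.exp (-L) := by
      rw [hL, Real.exp_neg, Real.exp_log (by positivity), inv_div]
      field_simp
    set X : ℝ := Real.exp (-(ζ * L)) + Real.exp (-L) with hX
    have hX0 : 0 < X := by positivity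
    have e3 : L * X ≤ η ^ 2 := by
      have h1 := nu2_exp (ζ * L) (by positivity)
      have h3 := nu2_exp L hL0
      have h4 : L * X ≤ L * (2 / (ζ * L) ^ 2 + 2 / L ^ 2) :=
        mul_le_mul_of_nonneg_left (by rw [hX]; linarith) hL0.le
      have h5 : L * (2 / (ζ * L) ^ 2 + 2 / L ^ 2) = (2 / ζ ^ 2 + 2) / L := by
        field_simp
      rw [h5] at h4
      refine h4.trans ?_
      rw [div_le_iff₀ hL0]
      rw [div_le_iff₀ (by positivity)] at hK
      linarith
    have e4 : (n:ℝ) * X ≤ m * η ^ 2 := by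
      have h1 : (n:ℝ) ≤ m * L := by
        have h3 : (n:ℝ) ≤ c * n := by nlinarith
        linarith
      calc (n:ℝ) * X ≤ (m * L) * X := mul_le_mul_of_nonneg_right h1 hX0.le
        _ = m * (L * X) := by ring
        _ ≤ m * η ^ 2 := mul_le_mul_of_nonneg_left e3 hm0.le
    have hkm' : (k:ℝ) ≤ m := by exact_mod_cast hkm
    have e5 : (q:ℝ) * (m * 2 ^ (2 * s) + k) ≤ m * (n * X) := by
      calc (q:ℝ) * (m * 2 ^ (2 * s) + k) ≤ (q:ℝ) * (m * Real.exp ((1 - ζ) * L) + m) := by
            apply mul_le_mul_of_nonneg_left _ hq0.le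
            have := mul_le_mul_of_nonneg_left e1 hm0.le
            linarith
        _ = m * (n * X) := by
            have h3 : Real.exp (-(ζ * L)) = Real.exp ((1 - ζ) * L) * Real.exp (-L) := by
              rw [← Real.exp_add]
              congr 1
              ring
            rw [e2, hX, h3]
            ring
    have e6 : (q:ℝ) * (m * 2 ^ (2 * s) + k) ≤ (k:ℝ) * k := by
      calc (q:ℝ) * (m * 2 ^ (2 * s) + k) ≤ m * (n * X) := e5
        _ ≤ m * (m * η ^ 2) := mul_le_mul_of_nonneg_left e4 hm0.le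
        _ = (η * m) * (η * m) := by ring
        _ ≤ (k:ℝ) * k := mul_le_mul hk2 hk2 (by positivity) (by positivity)
    exact_mod_cast e6

end Pool.Agent.Helper5.FS
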